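import Mathlib
import Pool.Agent.Lib.MP_1375b8_an.Main

set_option autoImplicit false

namespace Pool.Agent.Results.MP_1375b8_an.Classification

/-- Full answer: for `μ > 0` a solution with `y 0 ≠ 0` is bounded exactly when
`μ = y 0 / (e^{y 0} - 1)`, and for every `y₀ > 0` there is such a `μ`, with `0 < μ < 1`, and a
bounded solution starting from `y₀`. -/
theorem result :
    (∀ (μ : ℝ) (y : ℕ → ℝ), 0 < μ →
      (∀ n : ℕ, y (2 * n + 1) = y (2 * n) + μ * (1 - Real.exp (y n))) →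
      (∀ n : ℕ, 1 ≤ n → y (2 * n) = y (2 * n - 1) + μ * (1 - Real.exp (y n))) →
      y 0 ≠ 0 →
      ((∃ C : ℝ, ∀ n, |y n| ≤ C) ↔ μ = y 0 / (Real.exp (y 0) - 1))) ∧
    (∀ y₀ : ℝ, 0 < y₀ → ∃ (μ : ℝ) (y : ℕ → ℝ), 0 < μ ∧ μ < 1 ∧
      (∀ n : ℕ, y (2 * n + 1) = y (2 * n) + μ * (1 - Real.exp (y n))) ∧
      (∀ n : ℕ, 1 ≤ n → y (2 * n) = y (2 * n - 1) + μ * (1 - Real.exp (y n))) ∧
      y 0 = y₀ ∧ ∃ C : ℝ, ∀ n, |y n| ≤ C) := by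
  obtain ⟨h1, h2⟩ := Pool.Agent.Lib.MP_1375b8_an.classification
  refine ⟨fun μ y hμ ha hb h0 => h1 μ y hμ ⟨ha, hb⟩ h0, fun y₀ hy₀ => ?_⟩
  obtain ⟨μ, y, g1, g2, ⟨g3, g4⟩, g5, g6⟩ := h2 y₀ hy₀
  exact ⟨μ, y, g1, g2, g3, g4, g5, g6⟩

end Pool.Agent.Results.MP_1375b8_an.Classification
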